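import Mathlib
import Pool.Agent.Lib.MP_050cc1_an.Defs
import Pool.Agent.Lib.MP_050cc1_an.Transfer
import Pool.Agent.Lib.MP_050cc1_an.Lower
import Pool.Agent.Lib.MP_050cc1_an.Disc
import Pool.Agent.Lib.MP_050cc1_an.Ball
import Pool.Agent.Lib.MP_050cc1_an.Polar
import Pool.Agent.Lib.MP_050cc1_an.Kite

set_option autoImplicit false

/-! Disproof of Q1 of MP_050cc1_an: for `d = 2` and `n = 3` no ball maximises `F_3`. -/

namespace Pool.Agent.Results.MP_050cc1_an.BallNotMaximal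

open Pool.Agent.Lib.MP_050cc1_an
open MeasureTheory
open scoped InnerProductSpace ContDiff Topology

theorem F3_eq (Ω : Set (E 2)) : F 3 Ω = (neumannEig 2 Ω + neumannEig 3 Ω) * vol Ω *
    (vol (polarDual Ω) ^ 2 / moment (polarDual Ω)) := by
  have h1 : Finset.Icc 2 3 = ({2, 3} : Finset ℕ) := by decide
  have h2 : (2 : ℝ) / ((2 : ℕ) : ℝ) = 1 := by norm_num
  rw [F, h1, Finset.sum_pair (by norm_num), h2, Real.rpow_one]
  have h3 : (1 : ℝ) + 1 = ((2 : ℕ) : ℝ) := by norm_num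
  rw [h3, Real.rpow_natCast]

theorem F3_R : 2700 / 193 * Real.pi ^ 2 ≤ F 3 R := by
  rw [F3_eq, vol_R, vol_dual]
  have h2 := eig2_lower ⟨_, eigSet_mono 2 R rect_mem⟩
  have h3 := eig3_lower ⟨_, rect_mem⟩
  have hm := moment_dual_le
  have hm0 := moment_dual_pos
  have h4 : (1080 : ℝ) / 193 ≤ (9 / 5) ^ 2 / moment (polarDual R) := by
    rw [le_div_iff₀ hm0]
    linarith
  have h5 : 5 / 2 * Real.pi ^ 2 ≤ (neumannEig 2 R + neumannEig 3 R) * 8 := by
    have e1 : (Real.pi / 4) ^ 2 = Real.pi ^ 2 / 16 := by ring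
    have e2 : (Real.pi / 2) ^ 2 = Real.pi ^ 2 / 4 := by ring
    rw [e1] at h2
    rw [e2] at h3
    linarith
  calc 2700 / 193 * Real.pi ^ 2 = (5 / 2 * Real.pi ^ 2) * (1080 / 193) := by ring
    _ ≤ ((neumannEig 2 R + neumannEig 3 R) * 8) * ((9 / 5) ^ 2 / moment (polarDual R)) :=
      mul_le_mul h5 h4 (by norm_num) ((by positivity : (0 : ℝ) ≤ 5 / 2 * Real.pi ^ 2).trans h5)

theorem F3_ball (c : E 2) {r : ℝ} (hr : 0 < r) (hB : InK (Metric.ball c r)) :
    F 3 (Metric.ball c r) ≤ 448 / 33 * Real.pi ^ 2 := by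
  rw [F3_eq, vol_ball c hr.le]
  have h2 := eig2_ball c hr
  have h3 := eig3_ball c hr
  set D := polarDual (Metric.ball c r) with hD
  have hbt := bathtub (polarDual_isOpen Metric.isBounded_ball).measurableSet (polarDual_bdd hB)
  rw [← hD] at hbt
  have hm0 : 0 ≤ moment D := integral_nonneg fun x => sq_nonneg _
  have h4 : vol D ^ 2 / moment D ≤ 2 * Real.pi := by
    rcases hm0.eq_or_lt with h | h
    · rw [← h, div_zero]
      positivity
    · rw [div_le_iff₀ h]
      exact hbt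
  have h4' : 0 ≤ vol D ^ 2 / moment D := by positivity
  have h5 : (neumannEig 2 (Metric.ball c r) + neumannEig 3 (Metric.ball c r)) *
      (Real.pi * r ^ 2) ≤ 224 / 33 * Real.pi := by
    have e1 : neumannEig 2 (Metric.ball c r) + neumannEig 3 (Metric.ball c r) ≤
        224 / 33 / r ^ 2 := by
      have e2 : (224 : ℝ) / 33 / r ^ 2 = 112 / 33 / r ^ 2 + 112 / 33 / r ^ 2 := by ring
      rw [e2]
      exact add_le_add h2 h3
    have e3 := mul_le_mul_of_nonneg_right e1 (by positivity : 0 ≤ Real.pi * r ^ 2)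
    have e4 : 224 / 33 / r ^ 2 * (Real.pi * r ^ 2) = 224 / 33 * Real.pi := by
      field_simp
    rw [e4] at e3
    exact e3
  calc (neumannEig 2 (Metric.ball c r) + neumannEig 3 (Metric.ball c r)) *
      (Real.pi * r ^ 2) * (vol D ^ 2 / moment D) ≤ (224 / 33 * Real.pi) * (2 * Real.pi) :=
      mul_le_mul h5 h4 h4' (by positivity)
    _ = 448 / 33 * Real.pi ^ 2 := by ring

/-- For `d = 2` and `n = 3` there is a bounded convex domain containing the origin, namely the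
rectangle `(-10/3, 2/3) × (-1, 1)`, whose value of `F_3` is larger than that of every ball in
the class (with any centre and radius). -/
theorem result :
    InK {x : E 2 | -10 / 3 < x 0 ∧ x 0 < 2 / 3 ∧ -1 < x 1 ∧ x 1 < 1} ∧
    ∀ (c : E 2) (r : ℝ), InK (Metric.ball c r) →
      F 3 (Metric.ball c r) < F 3 {x : E 2 | -10 / 3 < x 0 ∧ x 0 < 2 / 3 ∧ -1 < x 1 ∧ x 1 < 1} := by
  refine ⟨R_InK, fun c r hB => ?_⟩
  have hr : 0 < r := by
    by_contra h
    have h0 := hB.2.2.2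
    rw [Metric.ball_eq_empty.2 (not_lt.1 h)] at h0
    exact h0
  have h1 := F3_ball c hr hB
  have h2 : 2700 / 193 * Real.pi ^ 2 ≤
      F 3 {x : E 2 | -10 / 3 < x 0 ∧ x 0 < 2 / 3 ∧ -1 < x 1 ∧ x 1 < 1} := F3_R
  have h3 : 448 / 33 * Real.pi ^ 2 < 2700 / 193 * Real.pi ^ 2 :=
    mul_lt_mul_of_pos_right (by norm_num) (by positivity)
  exact h1.trans_lt (h3.trans_le h2)

end Pool.Agent.Results.MP_050cc1_an.BallNotMaximal
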